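import Pool.Agent.helper70.M8.J2
import Pool.Agent.helper70.M9.Rows

set_option autoImplicit false

/-! Module OCT9-G2a: the test of a signed number; nonnegative coefficients by Kronecker packing,
digits of `s` below the digits of `w`. -/

open Finset

namespace Oct

theorem tstG_sound {o ms : ℕ} {σ : Bool} {x : SM} (h : tstG o ms σ x = true) :
    ∃ y : ℕ, (y : ℤ) = (if σ then x.val else -x.val) - o ∧ Nat.land y ms = 0 := by
  unfold tstG at h
  simp only [Bool.and_eq_true] at h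
  obtain ⟨⟨h1, h2⟩, h3⟩ := h
  have h2' : o ≤ x.v := Nat.le_of_ble_eq_true h2
  have h3' : Nat.land (Nat.sub x.v o) ms = 0 := Nat.eq_of_beq_eq_true h3
  refine ⟨Nat.sub x.v o, ?_, h3'⟩
  have h4 : ((Nat.sub x.v o : ℕ) : ℤ) = (x.v : ℤ) - o := Int.ofNat_sub h2'
  rw [h4]
  cases σ with
  | true =>
    have h5 : x.s = false := by
      cases hx : x.s with
      | false => rfl
      | true => rw [hx] at h1; exact absurd h1 (by decide)
    simp [SM.val, h5]
  | false =>
    have h5 : x.s = true := h1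
    simp [SM.val, h5]

open J2 in
theorem coreG {B m n : ℕ} {G : List (List ℤ)} {tm um : ℕ} (hs : sizeOK B m n G tm um = true)
    {a b : ℕ} (ha : a ≤ tm) (hb : b ≤ tm) {p0 p1 q0 q1 : ℤ} (hp : |p0| + |p1| ≤ 2 * um)
    (hq : |q0| + |q1| ≤ 2) {x : ℕ}
    (hx : (x : ℤ) = homT (R := ℤ) m n G (a + b * 2 ^ B) (1 + 2 ^ B)
        (p0 + p1 * 2 ^ (B * (m + 1))) (q0 + q1 * 2 ^ (B * (m + 1)))
      - (1 + 2 ^ B) ^ m * (q0 + q1 * 2 ^ (B * (m + 1))) ^ n)
    (hm : Nat.land x (mask B ((m + 1) * (n + 1))) = 0) (s w : ℝ) (hs0 : 0 ≤ s) (hw : 0 ≤ w) :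
    (1 + s) ^ m * (q0 + q1 * w) ^ n ≤
      homT (R := ℝ) m n G (a + b * s) (1 + s) (p0 + p1 * w) (q0 + q1 * w) := by
  simp only [sizeOK, Bool.and_eq_true, decide_eq_true_eq, List.all_eq_true] at hs
  obtain ⟨⟨⟨⟨⟨hn, hl⟩, hsz⟩, hB⟩, _⟩, _⟩ := hs
  have hrep := ((rep_homT ha hb hp hq G n hn hl).add (rep_mulPow (rep_pow m) hq n).neg).swap
  obtain ⟨k, hk1, hk2, hk3⟩ := hrep
  have hbound : (2 : ℤ) ^ (m + n) * (absT G tm um : ℤ) + 2 ^ n * 2 ^ m < 2 ^ (B - 1) := by
    have : ((2 ^ (m + n) * (absT G tm um + 1) : ℕ) : ℤ) < ((2 ^ (B - 1) : ℕ) : ℤ) := by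
      exact_mod_cast hsz
    push_cast at this
    calc (2 : ℤ) ^ (m + n) * (absT G tm um : ℤ) + 2 ^ n * 2 ^ m
        = 2 ^ (m + n) * ((absT G tm um : ℤ) + 1) := by ring
      _ < _ := this
  have hkb : ∀ j ≤ n, ∀ i ≤ m, |k j i| < 2 ^ (B - 1) := by
    intro j hj i hi
    refine lt_of_le_of_lt ?_ hbound
    refine le_trans ?_ hk2
    have h1 : |k j i| ≤ ∑ i ∈ range (m + 1), |k j i| :=
      Finset.single_le_sum (f := fun i => |k j i|) (fun i _ => abs_nonneg _)
        (Finset.mem_range.mpr (by omega))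
    refine h1.trans ?_
    exact Finset.single_le_sum (f := fun j => ∑ i ∈ range (m + 1), |k j i|)
      (fun j _ => Finset.sum_nonneg fun i _ => abs_nonneg _) (Finset.mem_range.mpr (by omega))
  set κ : ℕ → ℤ := fun r => k (r / (m + 1)) (r % (m + 1)) with hκ
  have hdiv : ∀ j i, i ≤ m → (j * (m + 1) + i) / (m + 1) = j ∧ (j * (m + 1) + i) % (m + 1) = i := by
    intro j i hi
    constructor
    · rw [mul_comm, Nat.mul_add_div (by omega), Nat.div_eq_of_lt (by omega), add_zero]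
    · rw [mul_comm, Nat.mul_add_mod, Nat.mod_eq_of_lt (by omega)]
  have hpos := digits_nonneg (B := B) (N := (m + 1) * (n + 1)) hB κ ?_ x ?_ hm
  · have hkpos : ∀ j ≤ n, ∀ i ≤ m, 0 ≤ k j i := by
      intro j hj i hi
      have h1 := hpos (j * (m + 1) + i) (by nlinarith)
      rw [hκ] at h1
      simp only [(hdiv j i hi).1, (hdiv j i hi).2] at h1
      exact h1
    have h2 := hk3 ℝ w s
    have h3 : 0 ≤ ∑ j ∈ range (n + 1), ∑ i ∈ range (m + 1), ((k j i : ℤ) : ℝ) * w ^ j * s ^ i := by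
      refine Finset.sum_nonneg fun j hj => Finset.sum_nonneg fun i hi => ?_
      have hi' : i ≤ m := by have := Finset.mem_range.mp hi; omega
      have hj' : j ≤ n := by have := Finset.mem_range.mp hj; omega
      have : (0 : ℝ) ≤ (k j i : ℝ) := by exact_mod_cast hkpos j hj' i hi'
      positivity
    rw [← h2] at h3
    linarith
  · intro r hr
    refine hkb _ ?_ _ ?_
    · have : r / (m + 1) < n + 1 := by
        rw [Nat.div_lt_iff_lt_mul (by omega), mul_comm]; exact hr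
      omega
    · have := Nat.mod_lt r (show 0 < m + 1 by omega)
      omega
  · have h2 := hk3 ℤ (2 ^ (B * (m + 1))) (2 ^ B)
    have h4 : ∑ r ∈ range ((m + 1) * (n + 1)), κ r * (2 : ℤ) ^ (B * r) =
        ∑ j ∈ range (n + 1), ∑ i ∈ range (m + 1),
          ((k j i : ℤ) : ℤ) * (2 ^ (B * (m + 1))) ^ j * (2 ^ B) ^ i := by
      rw [mul_comm (m + 1) (n + 1), sum_pack]
      refine Finset.sum_congr rfl fun j _ => Finset.sum_congr rfl fun i hi => ?_
      have hi' : i ≤ m := by have := Finset.mem_range.mp hi; omega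
      rw [hκ]
      simp only [(hdiv j i hi').1, (hdiv j i hi').2, Int.cast_id]
      rw [mul_assoc, ← pow_mul, ← pow_mul, ← pow_add]
      congr 2
      ring
    rw [h4]
    have h5 := h2.symm
    simp only [Int.cast_id] at h5
    rw [h5, hx]
    simp [sub_eq_add_neg]

end Oct
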